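import Mathlib
import Pool.Agent.Lib.helper23.AutG

set_option autoImplicit false

open Filter

namespace Pool.Agent.Results.MP_eff972_al.Main

/-- products of at most `n` elements of `S` and their inverses -/
def ball {G : Type} [Group G] (S : Finset G) (n : ℕ) : Set G :=
  {g | ∃ l : List G, l.length ≤ n ∧ (∀ x ∈ l, x ∈ S ∨ x⁻¹ ∈ S) ∧ l.prod = g}

/-- the number of orbits of the automorphism group that meet the ball of radius `n` -/
noncomputable def alpha {G : Type} [Group G] (S : Finset G) (n : ℕ) : ℕ :=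
  ((fun g : G => MulAction.orbit (MulAut G) g) '' ball S n).ncard

/-- the domination relation between growth functions -/
def Dom (f g : ℕ → ℕ) : Prop := ∃ c : ℕ, 1 ≤ c ∧ ∀ n, f n ≤ c * g (c * n + c) + c

open Pool.Agent.Lib.helper23

theorem result : ∃ (G : Type) (_ : Group G) (S : Finset G),
    Subgroup.closure (S : Set G) = ⊤ ∧ (∃ d : ℕ, Dom (alpha S) fun n => n ^ d) ∧
    ∀ k : ℕ, ¬ (Dom (alpha S) (fun n => n ^ k) ∧ Dom (fun n => n ^ k) (alpha S)) := by
  refine ⟨AutG.G, inferInstance, AutG.S, AutG.gen, ⟨3, 24, by norm_num, fun n => ?_⟩,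
    fun k ⟨⟨c, c1, c2⟩, ⟨d, d1, d2⟩⟩ => ?_⟩
  · have h1 : alpha AutG.S n ≤ AutG.alpha (n + 1) := Set.ncard_le_ncard
      (Set.image_mono fun g ⟨l, l1, l2⟩ => ⟨l, l1.trans (Nat.le_succ n), l2⟩)
      (((AutG.R _).finite_toSet.image _).subset (AutG.sub _))
    have h2 := AutG.upper (Nat.le_add_left 1 n)
    have h3 := Real.log_le_sub_one_of_pos (show (0 : ℝ) < (n + 1 : ℕ) by positivity)
    have h4 : (AutG.alpha (n + 1) : ℝ) ≤ 24 * (n + 1 : ℕ) ^ 3 := by
      nlinarith [sq_nonneg ((n + 1 : ℕ) : ℝ)]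
    have h5 : AutG.alpha (n + 1) ≤ 24 * (n + 1) ^ 3 := by exact_mod_cast h4
    have h6 := Nat.pow_le_pow_left (show n + 1 ≤ 24 * n + 24 by omega) 3
    dsimp only
    omega
  · rcases le_or_gt k 2 with hk | hk
    · obtain ⟨n, n1, n2⟩ := AutG.lower (17 * c ^ 3)
      have h1 : AutG.alpha (3 * n) ≤ c * (c * (3 * n) + c) ^ k + c := c2 (3 * n)
      have h2 : (c * (3 * n) + c) ^ k ≤ (c * (4 * n)) ^ 2 :=
        (Nat.pow_le_pow_right (by positivity) hk).trans (Nat.pow_le_pow_left (by nlinarith) 2)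
      have h3 : 17 * c ^ 3 * n ^ 2 < AutG.alpha (3 * n) := by exact_mod_cast n2
      have h4 : c ≤ c ^ 3 * n ^ 2 :=
        (Nat.le_self_pow (by norm_num) c).trans (Nat.le_mul_of_pos_right _ (by positivity))
      nlinarith [Nat.mul_le_mul_left c h2]
    · have hd : (1 : ℝ) ≤ d := by exact_mod_cast d1
      have h1 := (Real.isLittleO_log_id_atTop.bound
        (show (0 : ℝ) < 1 / (400 * d ^ 4) by positivity)).and (eventually_ge_atTop (1 : ℝ))
      obtain ⟨M, hM⟩ := eventually_atTop.1 h1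
      obtain ⟨n, hn⟩ := exists_nat_gt (max (max M 1) (200 * d ^ 3))
      simp only [max_lt_iff] at hn
      have n1 : 1 ≤ n := by exact_mod_cast hn.1.2.le
      have h2 : n ^ 3 ≤ d * AutG.alpha (d * n + d) + d :=
        (Nat.pow_le_pow_right n1 hk).trans (d2 n)
      have h3 := AutG.upper (show 1 ≤ d * n + d by omega)
      have h4 : (n : ℝ) ^ 3 ≤ d * AutG.alpha (d * n + d) + d := by exact_mod_cast h2
      push_cast at h3
      have h5 : (d : ℝ) * n + d ≤ 2 * d * n := by nlinarith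
      have h6 : (n : ℝ) ≤ d * n + d := by nlinarith
      have h7 := (hM (d * n + d) (by linarith)).1
      rw [id, Real.norm_of_nonneg (Real.log_nonneg (by linarith)),
        Real.norm_of_nonneg (by linarith), one_div_mul_eq_div, le_div_iff₀ (by positivity)] at h7
      have h8 := Real.log_nonneg (show (1 : ℝ) ≤ d * n + d by linarith)
      generalize Real.log (d * n + d) = L at *
      have h9 : 200 * d ^ 3 * L ≤ n :=
        le_of_mul_le_mul_left (a := 2 * (d : ℝ)) (by nlinarith) (by positivity)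
      have a1 : ((d : ℝ) * n + d) ^ 2 ≤ (2 * d * n) ^ 2 := pow_le_pow_left₀ (by positivity) h5 2
      have a2 : (d : ℝ) * AutG.alpha (d * n + d) ≤ d * (24 * (2 * d * n) ^ 2 * (1 + L)) :=
        mul_le_mul_of_nonneg_left (h3.trans (by gcongr)) (by positivity)
      have a3 : (d : ℝ) ≤ d ^ 3 * n ^ 2 := by
        have := one_le_pow₀ (n := 2) hd
        have := one_le_pow₀ (n := 2) hn.1.2.le
        nlinarith [mul_le_mul this (le_refl (d : ℝ)) (by positivity) (by positivity)]
      have a4 : (0 : ℝ) < n ^ 2 := by positivity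
      nlinarith [mul_le_mul_of_nonneg_left h9 a4.le, mul_lt_mul_of_pos_left hn.2 a4]

end Pool.Agent.Results.MP_eff972_al.Main
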